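import Mathlib

set_option autoImplicit false
open Filter Topology
open scoped ENNReal BigOperators

namespace Pool.Agent.Yule

/-- negative binomial weights -/
noncomputable def p (x : ℝ) (n j : ℕ) : ℝ := (n.choose j : ℝ) * x ^ (j + 1) * (1 - x) ^ (n - j)

/-- the matrix of the semigroup -/
noncomputable def u (x : ℝ) (n j : ℕ) : ℝ := Real.sqrt (n + 1) / Real.sqrt (j + 1) * p x n j

noncomputable def M (x : ℝ) (f : ℕ → ℝ) (n : ℕ) : ℝ := ∑ j ∈ Finset.range (n + 1), u x n j * f j

theorem p_nonneg {x : ℝ} (h0 : 0 ≤ x) (h1 : x ≤ 1) (n j : ℕ) : 0 ≤ p x n j := by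
  unfold p
  have : 0 ≤ 1 - x := by linarith
  positivity

theorem u_nonneg {x : ℝ} (h0 : 0 ≤ x) (h1 : x ≤ 1) (n j : ℕ) : 0 ≤ u x n j := by
  unfold u
  have := p_nonneg h0 h1 n j
  positivity

theorem p_of_lt (x : ℝ) {n j : ℕ} (h : n < j) : p x n j = 0 := by
  simp [p, Nat.choose_eq_zero_of_lt h]

theorem u_of_lt (x : ℝ) {n j : ℕ} (h : n < j) : u x n j = 0 := by
  simp [u, p_of_lt x h]

theorem row {x : ℝ} (h0 : 0 ≤ x) (h1 : x ≤ 1) (n : ℕ) :
    ∑ j ∈ Finset.range (n + 1), ((n : ℝ) + 1) / (j + 1) * p x n j ≤ 1 := by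
  have h := add_pow x (1 - x) (n + 1)
  rw [Finset.sum_range_succ'] at h
  have e : x + (1 - x) = 1 := by ring
  rw [e, one_pow] at h
  have h2 : ∑ j ∈ Finset.range (n + 1), ((n : ℝ) + 1) / (j + 1) * p x n j
      = ∑ k ∈ Finset.range (n + 1), x ^ (k + 1) * (1 - x) ^ (n + 1 - (k + 1)) * ((n + 1).choose (k + 1) : ℝ) := by
    apply Finset.sum_congr rfl
    intro j _
    have h3 : ((n : ℝ) + 1) * (n.choose j : ℝ) = ((n + 1).choose (j + 1) : ℝ) * (j + 1) := by
      have := Nat.add_one_mul_choose_eq n j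
      exact_mod_cast this
    have h5 : (0 : ℝ) < (j : ℝ) + 1 := by positivity
    unfold p
    rw [Nat.add_sub_add_right]
    field_simp
    linear_combination (x ^ (j + 1) * (1 - x) ^ (n - j)) * h3
  rw [h2]
  have h6 : 0 ≤ x ^ 0 * (1 - x) ^ (n + 1 - 0) * (((n + 1).choose 0 : ℕ) : ℝ) := by
    have : 0 ≤ 1 - x := by linarith
    positivity
  linarith

theorem col {x : ℝ} (h0 : 0 < x) (h1 : x ≤ 1) (j : ℕ) : HasSum (fun n => p x n j) 1 := by
  have hr : ‖1 - x‖ < 1 := by
    rw [Real.norm_eq_abs, abs_of_nonneg (by linarith)]; linarith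
  have h := hasSum_choose_mul_geometric_of_norm_lt_one j hr
  have h2 : HasSum (fun n => p x (n + j) j) 1 := by
    have h3 := h.mul_left (x ^ (j + 1))
    have e : x ^ (j + 1) * (1 / (1 - (1 - x)) ^ (j + 1)) = 1 := by
      have : 1 - (1 - x) = x := by ring
      rw [this]
      field_simp
    rw [e] at h3
    refine h3.congr_fun ?_ |> fun h => h
    intro n
    unfold p
    rw [Nat.add_sub_cancel]
    ring
  have h4 := (hasSum_nat_add_iff (f := fun n => p x n j) j (g := 1)).1 h2
  have h5 : ∑ i ∈ Finset.range j, p x i j = 0 := by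
    apply Finset.sum_eq_zero
    intro i hi
    exact p_of_lt x (Finset.mem_range.1 hi)
  rwa [h5, add_zero] at h4

theorem cs {x : ℝ} (h0 : 0 ≤ x) (h1 : x ≤ 1) (f : ℕ → ℝ) (n : ℕ) :
    (M x f n) ^ 2 ≤ ∑ j ∈ Finset.range (n + 1), p x n j * f j ^ 2 := by
  unfold M
  have h := Finset.sum_sq_le_sum_mul_sum_of_sq_le_mul (Finset.range (n + 1))
    (r := fun j => u x n j * f j) (f := fun j => ((n : ℝ) + 1) / (j + 1) * p x n j)
    (g := fun j => p x n j * f j ^ 2)
    (fun j _ => by have := p_nonneg h0 h1 n j; positivity)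
    (fun j _ => by have := p_nonneg h0 h1 n j; positivity)
    (fun j _ => le_of_eq <| by
      have e : (u x n j) ^ 2 = ((n : ℝ) + 1) / (j + 1) * p x n j ^ 2 := by
        unfold u
        rw [mul_pow, div_pow, Real.sq_sqrt (by positivity), Real.sq_sqrt (by positivity)]
      show (u x n j * f j) ^ 2 = _
      rw [mul_pow, e]; ring)
  refine h.trans ?_
  have h2 : 0 ≤ ∑ j ∈ Finset.range (n + 1), p x n j * f j ^ 2 :=
    Finset.sum_nonneg (fun j _ => by have := p_nonneg h0 h1 n j; positivity)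
  calc _ ≤ 1 * ∑ j ∈ Finset.range (n + 1), p x n j * f j ^ 2 :=
        mul_le_mul_of_nonneg_right (row h0 h1 n) h2
    _ = _ := one_mul _

theorem comp_p (x y : ℝ) (n j : ℕ) (hj : j ≤ n) :
    ∑ k ∈ Finset.range (n + 1), p y n k * p x k j = p (x * y) n j := by
  obtain ⟨m, rfl⟩ := Nat.exists_eq_add_of_le hj
  have e1 : j + m + 1 = j + (m + 1) := by ring
  rw [e1, Finset.sum_range_add]
  have e2 : ∑ k ∈ Finset.range j, p y (j + m) k * p x k j = 0 := by
    apply Finset.sum_eq_zero
    intro k hk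
    rw [p_of_lt x (Finset.mem_range.1 hk), mul_zero]
  rw [e2, zero_add]
  have e3 : ∀ i ∈ Finset.range (m + 1), p y (j + m) (j + i) * p x (j + i) j
      = ((j + m).choose j : ℝ) * (x * y) ^ (j + 1) * ((y * (1 - x)) ^ i * (1 - y) ^ (m - i) * (m.choose i : ℝ)) := by
    intro i hi
    have hi' : i ≤ m := by simpa [Nat.lt_succ_iff] using hi
    have h3 : ((j + m).choose (j + i) : ℝ) * ((j + i).choose j : ℝ)
        = ((j + m).choose j : ℝ) * (m.choose i : ℝ) := by
      have := Nat.choose_mul (n := j + m) (k := j + i) (s := j) (by omega)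
      have e : j + m - j = m := by omega
      have e' : j + i - j = i := by omega
      rw [e, e'] at this
      exact_mod_cast this
    unfold p
    have e4 : j + m - (j + i) = m - i := by omega
    have e5 : j + i - j = i := by omega
    rw [e4, e5]
    have e6 : y ^ (j + i + 1) = y ^ (j + 1) * y ^ i := by ring
    rw [e6, mul_pow, mul_pow]
    linear_combination (y ^ (j + 1) * y ^ i * (1 - y) ^ (m - i) * (x ^ (j + 1) * (1 - x) ^ i)) * h3
  rw [Finset.sum_congr rfl e3, ← Finset.mul_sum, ← add_pow]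
  unfold p
  have e7 : j + m - j = m := by omega
  have e8 : y * (1 - x) + (1 - y) = 1 - x * y := by ring
  rw [e7, e8]

theorem comp_M {x y : ℝ} (f : ℕ → ℝ) (n : ℕ) : M y (M x f) n = M (x * y) f n := by
  unfold M
  have h1 : ∀ k ∈ Finset.range (n + 1), u y n k * ∑ j ∈ Finset.range (k + 1), u x k j * f j
      = ∑ j ∈ Finset.range (n + 1), u y n k * (u x k j * f j) := by
    intro k hk
    rw [Finset.mul_sum]
    apply Finset.sum_subset
    · intro j hj
      simp only [Finset.mem_range] at *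
      omega
    · intro j _ hj
      have : k < j := by simpa [Nat.lt_succ_iff] using hj
      rw [u_of_lt x this]; ring
  rw [Finset.sum_congr rfl h1, Finset.sum_comm]
  apply Finset.sum_congr rfl
  intro j hj
  have hj' : j ≤ n := by simpa [Nat.lt_succ_iff] using hj
  unfold u
  rw [← comp_p x y n j hj', Finset.mul_sum, Finset.sum_mul]
  apply Finset.sum_congr rfl
  intro k _
  have hk : Real.sqrt ((k : ℝ) + 1) ≠ 0 := by positivity
  have hk2 : Real.sqrt ((j : ℝ) + 1) ≠ 0 := by positivity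
  field_simp

theorem M_one (f : ℕ → ℝ) (n : ℕ) : M 1 f n = f n := by
  unfold M
  rw [Finset.sum_eq_single n]
  · have hk : Real.sqrt ((n : ℝ) + 1) ≠ 0 := by positivity
    simp [u, p, hk]
  · intro j hj hjn
    have hj' : j < n := by
      have : j < n + 1 := by simpa using hj
      omega
    have : n - j ≠ 0 := by omega
    simp [u, p, this]
  · intro h; simp at h

end Pool.Agent.Yule
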