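import Mathlib
import Pool.Agent.Yule.Matrix

set_option autoImplicit false
open MeasureTheory Filter Topology
open scoped ENNReal BigOperators

namespace Pool.Agent.Yule

noncomputable abbrev E := Lp ℝ 2 (Measure.count : Measure ℕ)

theorem ae_all {P : ℕ → Prop} (h : ∀ᵐ n ∂(Measure.count : Measure ℕ), P n) : ∀ n, P n := by
  intro n
  rw [ae_iff, Measure.count_eq_zero_iff] at h
  by_contra hn
  have : n ∈ ({a | ¬ P a} : Set ℕ) := hn
  rw [h] at this
  exact this

theorem ext' {f g : E} (h : ∀ n, f n = g n) : f = g :=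
  Lp.ext (Eventually.of_forall h)

theorem add_apply (f g : E) (n : ℕ) : (f + g : E) n = f n + g n :=
  ae_all (Lp.coeFn_add f g) n

theorem sub_apply (f g : E) (n : ℕ) : (f - g : E) n = f n - g n :=
  ae_all (Lp.coeFn_sub f g) n

theorem smul_apply (c : ℝ) (f : E) (n : ℕ) : (c • f : E) n = c * f n :=
  ae_all (Lp.coeFn_smul c f) n

theorem memLp_iff (f : ℕ → ℝ) : MemLp f 2 (Measure.count : Measure ℕ) ↔ Summable (fun n => f n ^ 2) := by
  rw [memLp_two_iff_integrable_sq (measurable_of_countable f).aestronglyMeasurable,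
    integrable_count_iff]
  constructor
  · intro h
    exact h.congr (fun n => by simp)
  · intro h
    exact h.congr (fun n => by simp)

theorem summ (f : E) : Summable (fun n => f n ^ 2) := (memLp_iff _).1 (Lp.memLp f)

theorem norm_sq (f : E) : ‖f‖ ^ 2 = ∑' n, f n ^ 2 := by
  rw [← real_inner_self_eq_norm_sq, L2.inner_def]
  have h1 : Integrable (fun n => f n ^ 2) (Measure.count : Measure ℕ) :=
    (memLp_two_iff_integrable_sq (Lp.memLp f).1).1 (Lp.memLp f)
  have h2 : (fun a => inner ℝ (f a) (f a)) = fun n => f n ^ 2 := by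
    funext a
    simp [sq]
  rw [h2, integral_countable h1]
  apply tsum_congr
  intro n
  simp

theorem M_sum {x : ℝ} (h0 : 0 < x) (h1 : x ≤ 1) {f : ℕ → ℝ} (hf : Summable (fun n => f n ^ 2)) :
    Summable (fun n => (M x f n) ^ 2) ∧ ∑' n, (M x f n) ^ 2 ≤ ∑' n, f n ^ 2 := by
  have key : ∑' n, ENNReal.ofReal ((M x f n) ^ 2) ≤ ∑' n, ENNReal.ofReal (f n ^ 2) := by
    calc ∑' n, ENNReal.ofReal ((M x f n) ^ 2)
        ≤ ∑' n, ∑' j, ENNReal.ofReal (p x n j) * ENNReal.ofReal (f j ^ 2) := by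
          refine ENNReal.tsum_le_tsum (fun n => ?_)
          calc ENNReal.ofReal ((M x f n) ^ 2)
              ≤ ENNReal.ofReal (∑ j ∈ Finset.range (n + 1), p x n j * f j ^ 2) :=
                ENNReal.ofReal_le_ofReal (cs h0.le h1 f n)
            _ = ∑ j ∈ Finset.range (n + 1), ENNReal.ofReal (p x n j) * ENNReal.ofReal (f j ^ 2) := by
                rw [ENNReal.ofReal_sum_of_nonneg]
                · exact Finset.sum_congr rfl (fun j _ => ENNReal.ofReal_mul (p_nonneg h0.le h1 n j))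
                · intro j _
                  exact mul_nonneg (p_nonneg h0.le h1 n j) (sq_nonneg _)
            _ ≤ _ := ENNReal.sum_le_tsum _
      _ = ∑' j, ∑' n, ENNReal.ofReal (p x n j) * ENNReal.ofReal (f j ^ 2) := ENNReal.tsum_comm
      _ = ∑' j, ENNReal.ofReal (f j ^ 2) := by
          apply tsum_congr
          intro j
          rw [ENNReal.tsum_mul_right, ← ENNReal.ofReal_tsum_of_nonneg
            (fun n => p_nonneg h0.le h1 n j) (col h0 h1 j).summable, (col h0 h1 j).tsum_eq]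
          simp
  have h2 : ∑' n, ENNReal.ofReal (f n ^ 2) = ENNReal.ofReal (∑' n, f n ^ 2) :=
    (ENNReal.ofReal_tsum_of_nonneg (fun n => sq_nonneg _) hf).symm
  rw [h2] at key
  have h3 : ∑' n, ENNReal.ofReal ((M x f n) ^ 2) ≠ ∞ := (lt_of_le_of_lt key ENNReal.ofReal_lt_top).ne
  have h4 : Summable (fun n => (M x f n) ^ 2) := by
    have := ENNReal.summable_toReal h3
    refine this.congr (fun n => ?_)
    rw [ENNReal.toReal_ofReal (sq_nonneg _)]
  refine ⟨h4, ?_⟩
  rw [← ENNReal.ofReal_tsum_of_nonneg (fun n => sq_nonneg _) h4] at key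
  exact (ENNReal.ofReal_le_ofReal_iff (tsum_nonneg (fun n => sq_nonneg _))).1 key

theorem M_add (x : ℝ) (f g : ℕ → ℝ) (n : ℕ) : M x (fun k => f k + g k) n = M x f n + M x g n := by
  unfold M
  rw [← Finset.sum_add_distrib]
  exact Finset.sum_congr rfl (fun j _ => by ring)

theorem M_smul (x c : ℝ) (f : ℕ → ℝ) (n : ℕ) : M x (fun k => c * f k) n = c * M x f n := by
  unfold M
  rw [Finset.mul_sum]
  exact Finset.sum_congr rfl (fun j _ => by ring)

noncomputable def lin (x : ℝ) (h0 : 0 < x) (h1 : x ≤ 1) : E →ₗ[ℝ] E where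
  toFun f := ((memLp_iff _).2 (M_sum h0 h1 (summ f)).1).toLp (M x f)
  map_add' f g := by
    apply ext'
    intro n
    rw [add_apply, ae_all (MemLp.coeFn_toLp _) n, ae_all (MemLp.coeFn_toLp _) n,
      ae_all (MemLp.coeFn_toLp _) n, ← M_add]
    congr 1
    funext k
    exact add_apply f g k
  map_smul' c f := by
    apply ext'
    intro n
    rw [RingHom.id_apply, smul_apply, ae_all (MemLp.coeFn_toLp _) n, ae_all (MemLp.coeFn_toLp _) n,
      ← M_smul]
    congr 1
    funext k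
    exact smul_apply c f k

theorem lin_apply (x : ℝ) (h0 : 0 < x) (h1 : x ≤ 1) (f : E) (n : ℕ) :
    lin x h0 h1 f n = M x f n :=
  ae_all (MemLp.coeFn_toLp ((memLp_iff _).2 (M_sum h0 h1 (summ f)).1)) n

theorem lin_norm (x : ℝ) (h0 : 0 < x) (h1 : x ≤ 1) (f : E) : ‖lin x h0 h1 f‖ ≤ 1 * ‖f‖ := by
  rw [one_mul]
  have h := (M_sum h0 h1 (summ f)).2
  have h2 : ‖lin x h0 h1 f‖ ^ 2 ≤ ‖f‖ ^ 2 := by
    rw [norm_sq, norm_sq]
    simp only [lin_apply]
    exact h
  exact (pow_le_pow_iff_left₀ (norm_nonneg _) (norm_nonneg _) two_ne_zero).1 h2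

noncomputable def op (x : ℝ) (h0 : 0 < x) (h1 : x ≤ 1) : E →L[ℝ] E :=
  (lin x h0 h1).mkContinuous 1 (lin_norm x h0 h1)

/-- the semigroup -/
noncomputable def T (t : ℝ) : E →L[ℝ] E :=
  op (Real.exp (-|t|)) (Real.exp_pos _) (Real.exp_le_one_iff.2 (by simp))

theorem T_apply (t : ℝ) (f : E) (n : ℕ) : T t f n = M (Real.exp (-|t|)) f n := by
  unfold T op
  rw [LinearMap.mkContinuous_apply]
  exact lin_apply _ _ _ f n

theorem T_norm (t : ℝ) : ‖T t‖ ≤ 1 := by
  unfold T op
  exact LinearMap.mkContinuous_norm_le _ zero_le_one _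

theorem T_le (t : ℝ) (f : E) : ‖T t f‖ ≤ ‖f‖ := by
  have := (T t).le_of_opNorm_le (T_norm t) f
  rwa [one_mul] at this

theorem T_zero : T 0 = ContinuousLinearMap.id ℝ E := by
  ext1 f
  apply ext'
  intro n
  rw [T_apply]
  simp [M_one]

theorem T_add (s t : ℝ) (hs : 0 ≤ s) (ht : 0 ≤ t) : T (s + t) = (T s).comp (T t) := by
  ext1 f
  apply ext'
  intro n
  rw [ContinuousLinearMap.comp_apply, T_apply, T_apply]
  have e : ((T t f : E) : ℕ → ℝ) = M (Real.exp (-|t|)) f := by
    funext k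
    exact T_apply t f k
  rw [e, comp_M, ← Real.exp_add, abs_of_nonneg hs, abs_of_nonneg ht, abs_of_nonneg (by positivity)]
  congr 1
  ring_nf

end Pool.Agent.Yule
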