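import Mathlib
import Pool.Agent.Yule.Op

set_option autoImplicit false
open MeasureTheory Filter Topology
open scoped ENNReal BigOperators

namespace Pool.Agent.Yule

theorem cnt (j : ℕ) : (Measure.count : Measure ℕ) {j} ≠ ∞ := by simp

noncomputable def e (j : ℕ) : E := indicatorConstLp 2 (measurableSet_singleton j) (cnt j) (1 : ℝ)

theorem inner_e (j : ℕ) (f : E) : inner ℝ (e j) f = f j := by
  unfold e
  rw [L2.inner_indicatorConstLp_one, integral_singleton]
  simp

theorem norm_e (j : ℕ) : ‖e j‖ = 1 := by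
  unfold e
  rw [norm_indicatorConstLp two_ne_zero ENNReal.ofNat_ne_top]
  simp

theorem e_apply_self (j : ℕ) : (e j : E) j = 1 := by
  rw [← inner_e, real_inner_self_eq_norm_sq, norm_e]; norm_num

theorem e_apply_ne {j k : ℕ} (h : k ≠ j) : (e j : E) k = 0 := by
  have h1 := ae_all (indicatorConstLp_coeFn (p := 2) (hs := measurableSet_singleton j) (hμs := cnt j)
    (c := (1 : ℝ))) k
  unfold e
  rw [h1]
  simp [h]

theorem T_e_self (t : ℝ) (j : ℕ) : T t (e j) j = Real.exp (-|t|) ^ (j + 1) := by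
  rw [T_apply]
  unfold M
  rw [Finset.sum_eq_single j]
  · rw [e_apply_self, mul_one]
    have hk : Real.sqrt ((j : ℝ) + 1) ≠ 0 := by positivity
    simp [u, p, hk]
  · intro i _ hi
    rw [e_apply_ne hi, mul_zero]
  · intro h; simp at h

theorem tend_e (j : ℕ) : Tendsto (fun t => T t (e j)) (𝓝[≥] (0 : ℝ)) (𝓝 (e j)) := by
  rw [tendsto_iff_norm_sub_tendsto_zero]
  have h1 : ∀ t : ℝ, ‖T t (e j) - e j‖ ^ 2 ≤ 2 - 2 * Real.exp (-|t|) ^ (j + 1) := by
    intro t
    rw [norm_sub_sq_real, real_inner_comm, inner_e, T_e_self, norm_e]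
    have h := T_le t (e j)
    rw [norm_e] at h
    have h' : ‖T t (e j)‖ ^ 2 ≤ 1 := by
      have := norm_nonneg (T t (e j))
      nlinarith
    nlinarith
  have h2 : ∀ t : ℝ, ‖T t (e j) - e j‖ ≤ Real.sqrt (2 - 2 * Real.exp (-|t|) ^ (j + 1)) := by
    intro t
    exact Real.le_sqrt_of_sq_le (h1 t)
  have h3 : Tendsto (fun t : ℝ => Real.sqrt (2 - 2 * Real.exp (-|t|) ^ (j + 1))) (𝓝 0) (𝓝 0) := by
    have hc : Continuous (fun t : ℝ => Real.sqrt (2 - 2 * Real.exp (-|t|) ^ (j + 1))) := by fun_prop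
    have := hc.tendsto 0
    simpa using this
  exact squeeze_zero (fun t => norm_nonneg _) h2 (h3.mono_left nhdsWithin_le_nhds)

def K : Submodule ℝ E where
  carrier := {f | Tendsto (fun t => T t f) (𝓝[≥] (0 : ℝ)) (𝓝 f)}
  add_mem' {f g} hf hg := by
    show Tendsto (fun t => T t (f + g)) (𝓝[≥] (0 : ℝ)) (𝓝 (f + g))
    simp only [map_add]
    exact Tendsto.add hf hg
  zero_mem' := by
    show Tendsto (fun t => T t 0) (𝓝[≥] (0 : ℝ)) (𝓝 0)
    simp only [map_zero]
    exact tendsto_const_nhds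
  smul_mem' c f hf := by
    show Tendsto (fun t => T t (c • f)) (𝓝[≥] (0 : ℝ)) (𝓝 (c • f))
    simp only [map_smul]
    exact Tendsto.const_smul hf c

theorem tend_all (f : E) : Tendsto (fun t => T t f) (𝓝[≥] (0 : ℝ)) (𝓝 f) := by
  have h1 : Kᗮ = ⊥ := by
    rw [Submodule.eq_bot_iff]
    intro g hg
    apply ext'
    intro n
    have h2 := (Submodule.mem_orthogonal K g).1 hg (e n) (tend_e n)
    rw [inner_e] at h2
    rw [h2]
    exact (ae_all (Lp.coeFn_zero ℝ 2 _) n).symm
  have h2 := Submodule.topologicalClosure_eq_top_iff.2 h1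
  have h3 : f ∈ K.topologicalClosure := by rw [h2]; trivial
  have h4 : f ∈ closure (K : Set E) := h3
  rw [Metric.tendsto_nhds]
  intro ε hε
  obtain ⟨g, hgK, hg⟩ := Metric.mem_closure_iff.1 h4 (ε / 3) (by positivity)
  have hgK' : Tendsto (fun t => T t g) (𝓝[≥] (0 : ℝ)) (𝓝 g) := hgK
  have h5 := (Metric.tendsto_nhds.1 hgK') (ε / 3) (by positivity)
  filter_upwards [h5] with t ht
  rw [dist_eq_norm] at ht hg ⊢
  have h6 : T t f - f = T t (f - g) + (T t g - g) - (f - g) := by
    rw [map_sub]; abel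
  rw [h6]
  have h7 := T_le t (f - g)
  calc ‖T t (f - g) + (T t g - g) - (f - g)‖ ≤ ‖T t (f - g) + (T t g - g)‖ + ‖f - g‖ := norm_sub_le _ _
    _ ≤ (‖T t (f - g)‖ + ‖T t g - g‖) + ‖f - g‖ := by gcongr; exact norm_add_le _ _
    _ < ε := by linarith

theorem diff_le (f : E) {s t : ℝ} (hs : 0 ≤ s) (hst : s ≤ t) : ‖T t f - T s f‖ ≤ ‖T (t - s) f - f‖ := by
  have h : T t = (T s).comp (T (t - s)) := by
    rw [← T_add s (t - s) hs (by linarith)]
    congr 1; ring
  rw [h, ContinuousLinearMap.comp_apply, ← map_sub]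
  exact T_le s _

theorem diff_le' (f : E) {s t : ℝ} (hs : 0 ≤ s) (ht : 0 ≤ t) : ‖T t f - T s f‖ ≤ ‖T |t - s| f - f‖ := by
  rcases le_total s t with h | h
  · rw [abs_of_nonneg (by linarith)]
    exact diff_le f hs h
  · rw [abs_of_nonpos (by linarith), norm_sub_rev]
    have := diff_le f ht h
    rwa [show -(t - s) = s - t by ring]

theorem cont (f : E) : ContinuousOn (fun t => T t f) (Set.Ici 0) := by
  intro s hs
  have hs' : (0 : ℝ) ≤ s := hs
  show Tendsto (fun t => T t f) (𝓝[Set.Ici 0] s) (𝓝 (T s f))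
  rw [tendsto_iff_norm_sub_tendsto_zero]
  have h1 : Tendsto (fun t : ℝ => |t - s|) (𝓝[Set.Ici 0] s) (𝓝[≥] 0) := by
    apply tendsto_nhdsWithin_of_tendsto_nhds_of_eventually_within
    · have hc : Continuous (fun t : ℝ => |t - s|) := by fun_prop
      have := hc.tendsto s
      simp only [sub_self, abs_zero] at this
      exact this.mono_left nhdsWithin_le_nhds
    · exact Eventually.of_forall (fun t => Set.mem_Ici.2 (abs_nonneg (t - s)))
  have h2 := (tendsto_iff_norm_sub_tendsto_zero.1 (tend_all f)).comp h1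
  refine squeeze_zero' (Eventually.of_forall fun t => norm_nonneg _) ?_ h2
  filter_upwards [self_mem_nhdsWithin] with t ht
  exact diff_le' f hs' ht

end Pool.Agent.Yule
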