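import Mathlib
import Pool.Agent.Yule.Cont

set_option autoImplicit false
open MeasureTheory Filter Topology
open scoped ENNReal BigOperators

namespace Pool.Agent.Yule

theorem intInt (f : E) {a b : ℝ} (ha : 0 ≤ a) (hb : 0 ≤ b) :
    IntervalIntegrable (fun t => T t f) volume a b := by
  apply ContinuousOn.intervalIntegrable
  apply (cont f).mono
  intro x hx
  rw [Set.mem_uIcc] at hx
  rcases hx with h | h
  · exact ha.trans h.1
  · exact hb.trans h.1

theorem iter (g : E) (k : ℕ) : (T 1)^[k] g = T (k : ℝ) g := by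
  induction k with
  | zero => simp [T_zero]
  | succ k ih =>
    rw [Function.iterate_succ_apply', ih]
    have h := T_add 1 (k : ℝ) (by norm_num) (by positivity)
    have e : ((k + 1 : ℕ) : ℝ) = 1 + (k : ℝ) := by push_cast; ring
    rw [e, h, ContinuousLinearMap.comp_apply]

theorem block (f : E) (k : ℕ) :
    ∫ t in (k : ℝ)..((k + 1 : ℕ) : ℝ), T t f = T (k : ℝ) (∫ t in (0 : ℝ)..1, T t f) := by
  rw [← ContinuousLinearMap.intervalIntegral_comp_comm (T (k : ℝ)) (intInt f le_rfl zero_le_one)]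
  have h1 : ∫ t in (0 : ℝ)..1, T (k : ℝ) (T t f) = ∫ t in (0 : ℝ)..1, T ((k : ℝ) + t) f := by
    apply intervalIntegral.integral_congr
    intro t ht
    rw [Set.uIcc_of_le zero_le_one] at ht
    show T (k : ℝ) (T t f) = T ((k : ℝ) + t) f
    rw [T_add (k : ℝ) t (by positivity) ht.1, ContinuousLinearMap.comp_apply]
  rw [h1, intervalIntegral.integral_comp_add_left (fun t => T t f)]
  push_cast
  rw [add_zero]

theorem sumBlock (f : E) (N : ℕ) :
    ∫ t in (0 : ℝ)..(N : ℝ), T t f = ∑ k ∈ Finset.range N, (T 1)^[k] (∫ t in (0 : ℝ)..1, T t f) := by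
  have h := intervalIntegral.sum_integral_adjacent_intervals (f := fun t => T t f) (μ := volume)
    (a := fun k : ℕ => (k : ℝ)) (n := N) (fun k _ => intInt f (by positivity) (by positivity))
  have e : ((0 : ℕ) : ℝ) = 0 := by norm_num
  simp only [e] at h
  rw [← h]
  apply Finset.sum_congr rfl
  intro k _
  rw [iter]
  exact block f k

theorem ergodic (f : E) :
    ∃ g : E, Tendsto (fun s : ℝ => s⁻¹ • ∫ t in (0 : ℝ)..s, T t f) atTop (𝓝 g) := by
  have h0 := ContinuousLinearMap.tendsto_birkhoffAverage_orthogonalProjection (T 1) (T_norm 1)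
    (∫ t in (0 : ℝ)..1, T t f)
  obtain ⟨g, hg⟩ : ∃ g : E, Tendsto (birkhoffAverage ℝ (T 1) _root_.id · (∫ t in (0 : ℝ)..1, T t f))
      atTop (𝓝 g) := ⟨_, h0⟩
  refine ⟨g, ?_⟩
  have h1 : ∀ N : ℕ, birkhoffAverage ℝ (T 1) _root_.id N (∫ t in (0 : ℝ)..1, T t f)
      = (N : ℝ)⁻¹ • ∫ t in (0 : ℝ)..(N : ℝ), T t f := by
    intro N
    rw [sumBlock]
    rfl
  simp only [h1] at hg
  have h2 : Tendsto (fun s : ℝ => ((⌊s⌋₊ : ℝ) / s) • ((⌊s⌋₊ : ℝ)⁻¹ • ∫ t in (0 : ℝ)..(⌊s⌋₊ : ℝ), T t f))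
      atTop (𝓝 ((1 : ℝ) • g)) :=
    (tendsto_nat_floor_div_atTop (R := ℝ)).smul (hg.comp tendsto_nat_floor_atTop)
  have h3 : Tendsto (fun s : ℝ => s⁻¹ • ∫ t in (⌊s⌋₊ : ℝ)..s, T t f) atTop (𝓝 0) := by
    have h4 : Tendsto (fun s : ℝ => s⁻¹ * ‖f‖) atTop (𝓝 0) := by
      have := (tendsto_inv_atTop_zero (𝕜 := ℝ)).mul_const ‖f‖
      simpa using this
    refine squeeze_zero_norm' ?_ h4
    filter_upwards [eventually_gt_atTop (0 : ℝ)] with s hs
    rw [norm_smul, Real.norm_of_nonneg (inv_nonneg.2 hs.le)]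
    apply mul_le_mul_of_nonneg_left _ (inv_nonneg.2 hs.le)
    have h5 := intervalIntegral.norm_integral_le_of_norm_le_const (a := (⌊s⌋₊ : ℝ)) (b := s)
      (f := fun t => T t f) (C := ‖f‖) (fun t _ => T_le t f)
    refine h5.trans ?_
    have h6 : |s - (⌊s⌋₊ : ℝ)| ≤ 1 := by
      have h7 := Nat.floor_le hs.le
      have h8 := Nat.lt_floor_add_one s
      rw [abs_le]; constructor <;> linarith
    have := norm_nonneg f
    nlinarith
  have h9 := h2.add h3
  rw [one_smul, add_zero] at h9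
  refine h9.congr' ?_
  filter_upwards [eventually_ge_atTop (1 : ℝ)] with s hs
  have hfl : (⌊s⌋₊ : ℝ) ≠ 0 := by
    have : 1 ≤ ⌊s⌋₊ := Nat.le_floor (by simpa using hs)
    positivity
  have hs0 : s ≠ 0 := by positivity
  rw [smul_smul]
  have e : (⌊s⌋₊ : ℝ) / s * (⌊s⌋₊ : ℝ)⁻¹ = s⁻¹ := by field_simp
  rw [e, ← smul_add, intervalIntegral.integral_add_adjacent_intervals]
  · exact intInt f le_rfl (by positivity)
  · exact intInt f (by positivity) (by positivity)

theorem T_e0 (t : ℝ) (n : ℕ) :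
    T t (e 0) n = Real.sqrt (n + 1) * (Real.exp (-|t|) * (1 - Real.exp (-|t|)) ^ n) := by
  rw [T_apply]
  unfold M
  rw [Finset.sum_eq_single 0]
  · rw [e_apply_self, mul_one]
    simp [u, p]
  · intro i _ hi
    rw [e_apply_ne hi, mul_zero]
  · intro h; simp at h

theorem norm_T_e0 {t : ℝ} (ht : 0 < t) : 1 / 4 ≤ ‖T t (e 0)‖ ^ 2 := by
  rw [norm_sq]
  simp only [T_e0]
  obtain ⟨x, hx⟩ : ∃ x, x = Real.exp (-|t|) := ⟨_, rfl⟩
  rw [← hx]
  have hx0 : 0 < x := by rw [hx]; exact Real.exp_pos _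
  have hx1 : x < 1 := by
    rw [hx, Real.exp_lt_one_iff]
    have := abs_pos.2 ht.ne'
    linarith
  have hr : ‖(1 - x) ^ 2‖ < 1 := by
    rw [Real.norm_eq_abs, abs_of_nonneg (sq_nonneg _)]
    nlinarith
  have h := hasSum_choose_mul_geometric_of_norm_lt_one 1 hr
  have h2 := h.mul_left (x ^ 2)
  have h3 : HasSum (fun n : ℕ => (Real.sqrt (n + 1) * (x * (1 - x) ^ n)) ^ 2)
      (x ^ 2 * (1 / (1 - (1 - x) ^ 2) ^ (1 + 1))) := by
    refine h2.congr_fun ?_ |> fun h => h
    intro n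
    rw [mul_pow, Real.sq_sqrt (by positivity), Nat.choose_one_right, ← pow_mul (1 - x) 2 n]
    push_cast
    ring
  rw [h3.tsum_eq]
  have h4 : 1 - (1 - x) ^ 2 = x * (2 - x) := by ring
  rw [h4]
  have h5 : x ^ 2 * (1 / (x * (2 - x)) ^ (1 + 1)) = 1 / (2 - x) ^ 2 := by
    have : 2 - x ≠ 0 := by linarith
    rw [mul_pow]
    field_simp
  rw [h5]
  apply one_div_le_one_div_of_le
  · have : 0 < 2 - x := by linarith
    positivity
  · nlinarith

theorem no_lim : ¬ ∃ g : E, Tendsto (fun t : ℝ => T t (e 0)) atTop (𝓝 g) := by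
  rintro ⟨g, hg⟩
  have h1 : g = 0 := by
    apply ext'
    intro n
    have h2 : Tendsto (fun t : ℝ => inner ℝ (e n) (T t (e 0))) atTop (𝓝 (inner ℝ (e n) g)) :=
      Tendsto.inner tendsto_const_nhds hg
    simp only [inner_e, T_e0] at h2
    have h3 : Tendsto (fun t : ℝ => Real.sqrt (n + 1) * (Real.exp (-|t|) * (1 - Real.exp (-|t|)) ^ n))
        atTop (𝓝 0) := by
      have h4 : Tendsto (fun t : ℝ => Real.exp (-|t|)) atTop (𝓝 0) := by
        refine (Real.tendsto_exp_neg_atTop_nhds_zero).congr' ?_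
        filter_upwards [eventually_ge_atTop (0 : ℝ)] with t ht
        rw [abs_of_nonneg ht]
      have hc : Continuous (fun x : ℝ => Real.sqrt (n + 1) * (x * (1 - x) ^ n)) := by fun_prop
      have h5 := (hc.tendsto 0).comp h4
      rw [zero_mul, mul_zero] at h5
      exact h5
    rw [tendsto_nhds_unique h2 h3]
    exact (ae_all (Lp.coeFn_zero ℝ 2 _) n).symm
  rw [h1] at hg
  have h6 : Tendsto (fun t : ℝ => ‖T t (e 0)‖ ^ 2) atTop (𝓝 0) := by
    have := (hg.norm).pow 2
    simpa using this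
  have h7 := (h6.eventually (gt_mem_nhds (show (0 : ℝ) < 1 / 4 by norm_num))).and
    (eventually_gt_atTop (0 : ℝ))
  obtain ⟨t, ht1, ht2⟩ := h7.exists
  have := norm_T_e0 ht2
  linarith

theorem kernel (t : ℝ) : ∃ k : ℕ × ℕ → ℝ, Measurable k ∧ (∀ z, 0 ≤ k z) ∧
    ∀ f : E, ∀ᵐ x ∂(Measure.count : Measure ℕ),
      Integrable (fun y => k (x, y) * f y) (Measure.count : Measure ℕ) ∧
      T t f x = ∫ y, k (x, y) * f y ∂(Measure.count : Measure ℕ) := by
  refine ⟨fun z => u (Real.exp (-|t|)) z.1 z.2, measurable_of_countable _, ?_, ?_⟩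
  · intro z
    exact u_nonneg (Real.exp_pos _).le (Real.exp_le_one_iff.2 (by simp)) _ _
  · intro f
    refine Eventually.of_forall (fun n => ?_)
    have hz : ∀ y ∉ Finset.range (n + 1), u (Real.exp (-|t|)) n y * f y = 0 := by
      intro y hy
      have : n < y := by simpa [Nat.lt_succ_iff] using hy
      rw [u_of_lt _ this, zero_mul]
    have hI : Integrable (fun y => u (Real.exp (-|t|)) n y * f y) (Measure.count : Measure ℕ) := by
      rw [integrable_count_iff]
      apply Summable.norm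
      exact (hasSum_sum_of_ne_finset_zero hz).summable
    refine ⟨hI, ?_⟩
    rw [integral_countable hI, T_apply]
    unfold M
    rw [tsum_eq_sum (s := Finset.range (n + 1))]
    · apply Finset.sum_congr rfl
      intro j _
      simp
    · intro y hy
      rw [hz y hy, smul_zero]

end Pool.Agent.Yule
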